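import Pool.Agent.MP_ee8c61_ag.M3F.All
import Pool.Agent.MP_ee8c61_ag.M3.Frame

/-!
The fibred cases of the surface datum.
-/

namespace Pool.Agent.MP_ee8c61_ag.M3F

open M3 M3RESID Finset
open scoped IntermediateField

noncomputable section

variable {L : Type} [Field L] [Algebra ℂ L]

theorem kill_le (X : VF L) {F : IntermediateField ℂ L} (h : F ≤ cst {X}) {x : L}
    (hx : IsAlgebraic F x) : X x = 0 := kill_alg F X (fun _ hy => h hy X rfl) hx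

theorem alg_pair (C : Co L 2)
    (hf : FiniteDimensional (IntermediateField.adjoin ℂ (Set.range C.z)) L) {t z : L}
    (ht : Transcendental ℂ t) (hz : Transcendental ℂ⟮t⟯ z) {F : IntermediateField ℂ L}
    (h1 : t ∈ F) (h2 : z ∈ F) (x : L) : IsAlgebraic F x := by
  have a1 : AlgebraicIndependent ℂ fun _ : Unit => t := algebraicIndependent_unique_type_iff.2 ht
  have a2 : AlgebraicIndependent ℂ fun o : Option Unit => o.elim z fun _ => t := by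
    refine AlgebraicIndependent.option_iff.2 ⟨a1, fun h => hz ?_⟩
    refine IsAlgebraic.tower_top_of_subalgebra_le (B := ℂ⟮t⟯.toSubalgebra) ?_ h
    refine Algebra.adjoin_le ?_
    rintro _ ⟨_, rfl⟩
    exact IntermediateField.mem_adjoin_simple_self ℂ t
  have h3 : Algebra.trdeg ℂ L ≤ Cardinal.mk (Option Unit) := by
    have : Algebra.IsAlgebraic (Algebra.adjoin ℂ (Set.range C.z)) L :=
      IntermediateField.isAlgebraic_adjoin_iff_top.1 inferInstance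
    refine (Algebra.IsAlgebraic.trdeg_le_cardinalMk ℂ (Set.range C.z)).trans
      (Cardinal.mk_range_le.trans ?_)
    simp
  refine alg_le ?_
    ((a2.isTranscendenceBasis_of_trdeg_le_of_finite h3).isAlgebraic_field.isAlgebraic x)
  rw [IntermediateField.adjoin_le_iff]
  rintro _ ⟨_ | _, rfl⟩
  exacts [h2, h1]

theorem tr_of_nc {t : L} (h : ∀ c : ℂ, t ≠ algebraMap ℂ L c) : Transcendental ℂ t := fun ha => by
  obtain ⟨c, hc⟩ := minpoly.mem_range_of_degree_eq_one ℂ t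
    (IsAlgClosed.degree_eq_one_of_irreducible ℂ (minpoly.irreducible ha.isIntegral))
  exact h c hc.symm

theorem exists_der (C : Co L 2)
    (hf : FiniteDimensional (IntermediateField.adjoin ℂ (Set.range C.z)) L) {t : L}
    (ht : Transcendental ℂ t) : ∃ X : VF L, X t ≠ 0 := by
  by_contra h
  push Not at h
  by_cases hz : IsAlgebraic ℂ⟮t⟯ (C.z 0)
  · have := kill_le (C.D 0) (IntermediateField.adjoin_simple_le_iff.2 fun X _ => h X) hz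
    simp [C.dual] at this
  · have := kill_le (C.D 1) le_rfl (alg_pair C hf ht hz (F := cst {C.D 1}) (fun X _ => h X)
      (fun X hX => by rw [Set.mem_singleton_iff.1 hX]; simp [C.dual]) (C.z 1))
    simp [C.dual] at this

theorem alg_Kz (C : Co L 2)
    (hf : FiniteDimensional (IntermediateField.adjoin ℂ (Set.range C.z)) L) {t : L}
    (ht : Transcendental ℂ t) {x : L} (hx : x ∈ Kz t) : IsAlgebraic ℂ⟮t⟯ x := by
  by_contra hz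
  obtain ⟨i, hi⟩ := fib_ne C (exists_der C hf ht)
  exact hi (kill_le _ le_rfl (alg_pair C hf ht hz (F := cst {fib C t})
    (fun X hX => by rw [Set.mem_singleton_iff.1 hX, fib_self])
    (fun X hX => by rw [Set.mem_singleton_iff.1 hX]; exact hx _ (fib_self C)) (C.z i)))

theorem nc_ne {Γ : DV L} {t : L} (h : NC Γ t) (c : ℂ) : t ≠ algebraMap ℂ L c := fun e =>
  h.2 c (by rw [e, sub_self]; exact zero_mem _)

theorem hor_of_nc (C : Co L 2)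
    (hf : FiniteDimensional (IntermediateField.adjoin ℂ (Set.range C.z)) L) {Γ : DV L} {t : L}
    (hπ : ∃ π, Γ.v π = 1) (h : NC Γ t) : Hor (Kz t) Γ := by
  have h1 : ∀ p : Polynomial ℂ, p ≠ 0 →
      Polynomial.aeval t p ≠ 0 ∧ Γ.v (Polynomial.aeval t p) = 0 := fun p hp => by
    induction hn : p.natDegree using Nat.strong_induction_on generalizing p with
    | _ n ih =>
      by_cases hd : p.degree = 0
      · rw [Polynomial.eq_C_of_degree_eq_zero hd] at hp ⊢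
        rw [Polynomial.aeval_C]
        exact ⟨(map_ne_zero _).2 (Polynomial.C_ne_zero.1 hp), Γ.cst _⟩
      obtain ⟨c, hc⟩ := IsAlgClosed.exists_root p hd
      obtain ⟨r, rfl⟩ := Polynomial.dvd_iff_isRoot.2 hc
      have hr : r ≠ 0 := right_ne_zero_of_mul hp
      obtain ⟨r1, r2⟩ := ih r.natDegree (by
        rw [← hn, Polynomial.natDegree_mul (Polynomial.X_sub_C_ne_zero c) hr,
          Polynomial.natDegree_X_sub_C]; omega) r hr rfl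
      have e0 : t - algebraMap ℂ L c ≠ 0 := sub_ne_zero.2 (nc_ne h c)
      have e1 := (sub_mem h.1 (Γ.cst_mem c)).resolve_left e0
      have e2 : ¬1 ≤ Γ.v (t - algebraMap ℂ L c) := fun e => h.2 c (Or.inr e)
      rw [map_mul, map_sub, Polynomial.aeval_X, Polynomial.aeval_C]
      exact ⟨mul_ne_zero e0 r1, by rw [Γ.mul _ _ e0 r1]; omega⟩
  refine ⟨hπ, fun x hx => M3G.RDn.alg_mem (k := ℂ⟮t⟯) Γ.O (fun g => ?_)
    (alg_Kz C hf (tr_of_nc (nc_ne h)) hx)⟩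
  obtain ⟨r, s, e⟩ := (IntermediateField.mem_adjoin_simple_iff ℂ (g : L)).1 g.2
  show (g : L) ∈ Γ.F 0
  rw [e]
  by_cases hr : r = 0
  · simp [hr]
  by_cases hs : s = 0
  · simp [hs]
  refine Or.inr ?_
  rw [div_eq_mul_inv, Γ.mul _ _ (h1 r hr).1 (inv_ne_zero (h1 s hs).1), Γ.inv, (h1 r hr).2,
    (h1 s hs).2]
  simp

theorem Hor.unit {K₀ : IntermediateField ℂ L} {Γ : DV L} (h : Hor K₀ Γ) {g : L} (hg : g ∈ K₀) :
    Γ.v g = 0 := by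
  by_cases h0 : g = 0
  · rw [h0, Γ.zero]
  have h1 := (h.2 g hg).resolve_left h0
  have h2 := (h.2 _ (inv_mem hg)).resolve_left (inv_ne_zero h0)
  rw [Γ.inv] at h2
  omega

theorem Hor.nc {K₀ : IntermediateField ℂ L} {Γ : DV L} (h : Hor K₀ Γ) {g : L} (hg : g ∈ K₀)
    (hc : ∀ c : ℂ, g ≠ algebraMap ℂ L c) : NC Γ g :=
  ⟨h.2 g hg, fun c e => by
    have := e.resolve_left (sub_ne_zero.2 (hc c))
    rw [h.unit (sub_mem hg (K₀.algebraMap_mem c))] at this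
    omega⟩

theorem ne_of_der {t : L} (ht : ∃ X : VF L, X t ≠ 0) (c : ℂ) : t ≠ algebraMap ℂ L c := fun e => by
  obtain ⟨X, hX⟩ := ht
  exact hX (by rw [e, Derivation.map_algebraMap])

theorem exists_pole (C : Co L 2)
    (hf : FiniteDimensional (IntermediateField.adjoin ℂ (Set.range C.z)) L) {t : L}
    (ht : ∃ X : VF L, X t ≠ 0) {z : L} (hz : z ∉ Kz t) : ∃ Γ, Hor (Kz t) Γ ∧ Γ.v z < 0 := by
  have := cz (Kz t)
  let Y := rel (Kz t) (fib C t) fun _ hy => hy _ (fib_self C)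
  have hY : Y ≠ 0 := fun h => by
    obtain ⟨i, hi⟩ := fib_ne C ht
    exact hi (congrArg (fun Z : Derivation (Kz t) L L => Z (C.z i)) h)
  obtain ⟨g, N, hD⟩ := gf (Kz t) L (isFF_Kz C hf ht) (cl_Kz t) Y hY
  have : IsIntegrallyClosedIn (Kz t).toSubring L :=
    isIntegrallyClosedIn_iff.2 ⟨Subtype.val_injective, fun {x} hx =>
      cl_Kz t x (IsIntegral.isAlgebraic (R := Kz t) hx)⟩
  obtain ⟨V, h1, h2⟩ := Subring.exists_le_valuationSubring_of_isIntegrallyClosedIn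
    (R := (Kz t).toSubring) (x := z) hz
  obtain ⟨P, hP⟩ := hD.pl V (fun c => h1 c.2) fun e => h2 (e ▸ trivial)
  refine ⟨_, hor_dvOf P, not_le.1 fun e => h2 ((hP z).2 ?_)⟩
  simpa using (mem_F P (m := 0)).1 (Or.inr e)

omit [Algebra ℂ L] in
theorem exists_gn {S : Finset L} (h : ∃ r ∈ S, r ≠ 0) (Γ : DV L) : ∃ r, GnS S Γ r := by
  classical
  obtain ⟨r, h1, h2⟩ := exists_min_image (S.filter (· ≠ 0)) Γ.v
    (h.imp fun r hr => mem_filter.2 hr)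
  obtain ⟨h3, h4⟩ := mem_filter.1 h1
  refine ⟨r, h3, h4, fun s hs => ?_⟩
  by_cases h0 : s = 0
  · simp [h0]
  have := h2 s (mem_filter.2 ⟨hs, h0⟩)
  exact Or.inr (by rw [div_eq_mul_inv, Γ.mul _ _ h0 (inv_ne_zero h4), Γ.inv]; omega)

omit [Algebra ℂ L] in
theorem dg_le {S : Finset L} {Γ : DV L} {n : ℚ} (h : Dg S Γ n) {s : L} (hs : s ∈ S) (h0 : s ≠ 0) :
    -n ≤ Γ.v s := by
  obtain ⟨r, ⟨-, h2, h3⟩, h4⟩ := h
  have := (h3 s hs).resolve_left (div_ne_zero h0 h2)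
  rw [div_eq_mul_inv, Γ.mul _ _ h0 (inv_ne_zero h2), Γ.inv] at this
  rw [← h4]
  exact_mod_cast (by omega : Γ.v r ≤ Γ.v s)

theorem x_mem (x : Fin 3 → L) (S : Finset L) (l : Fin 3) : x l ∈ RF x S :=
  IntermediateField.subset_adjoin _ _ (Or.inl ⟨l, rfl⟩)

theorem rat_mem (x : Fin 3 → L) {S : Finset L} {s s' : L} (h : s ∈ S) (h' : s' ∈ S) :
    s' / s ∈ RF x S := IntermediateField.subset_adjoin _ _ (Or.inr ⟨s, h, s', h', rfl⟩)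

variable {D : SD L} {t : L}

/-- The pencil of `t` is compatible with the family on the wall. -/
structure Pc (D : SD L) (t : L) : Prop where
  der : ∃ X : VF L, X t ≠ 0
  le : RF D.x D.S0 ≤ Kz t

theorem pc_of (h : D.OK) (ht : ∃ X : VF L, X t ≠ 0) (hm : t ∈ RF D.x D.S0) : Pc D t := by
  obtain ⟨X, h0, hX⟩ := h.small
  obtain ⟨κ, rfl⟩ := fib_mul D.C ht (hX t hm)
  refine ⟨ht, fun g hg => (mem_Kz D.C ht).2 ?_⟩
  have h1 : κ * fib D.C t g = 0 := hX g hg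
  exact (mul_eq_zero.1 h1).resolve_left fun e => h0 (by rw [e, zero_smul])

theorem Pc.cv (p : Pc D t) {Γ : DV L} (h : Hor (Kz t) Γ) : Cv D.x Γ :=
  ⟨h.1, fun l => h.2 _ (p.le (x_mem _ _ l)), t, h.nc (self_mem_Kz t) (ne_of_der p.der)⟩

theorem Pc.hor (p : Pc D t) (h : D.OK) : ∃ Γ, Hor (Kz t) Γ := by
  obtain ⟨i, hi⟩ := fib_ne D.C p.der
  exact (exists_pole D.C h.vol.srf.fin p.der fun e => hi (e _ (fib_self D.C))).imp fun _ x => x.1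

theorem Pc.s0 (p : Pc D t) (h : D.OK) :
    ∃ s, s ≠ 0 ∧ ∀ Γ, Hor (Kz t) Γ → (Γ.v s : ℚ) = -(D.m * D.th D.t0 Γ) := by
  obtain ⟨Γ₀, h₀⟩ := p.hor h
  obtain ⟨s, ⟨h1, h2, -⟩, -⟩ := h.sem.dg0 _ (p.cv h₀)
  refine ⟨s, h2, fun Γ hΓ => ?_⟩
  obtain ⟨r, ⟨g1, g2, -⟩, g3⟩ := h.sem.dg0 _ (p.cv hΓ)
  have := hΓ.unit (p.le (rat_mem _ g1 h1))
  rw [div_eq_mul_inv, Γ.mul _ _ h2 (inv_ne_zero g2), Γ.inv] at this
  rw [← g3]
  exact_mod_cast (by omega : Γ.v s = Γ.v r)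

theorem Pc.mov (p : Pc D t) (h : D.OK) {s : L} (hs : s ≠ 0) :
    ∃ Γ, Hor (Kz t) Γ ∧ -(D.m * D.th D.t1 Γ) < Γ.v s := by
  by_contra hn
  push Not at hn
  have key : ∀ r ∈ D.S1, r / s ∈ Kz t := fun r hr => by
    by_contra e
    obtain ⟨Γ, h1, h2⟩ := exists_pole D.C h.vol.srf.fin p.der e
    have r0 : r ≠ 0 := fun x => e (by rw [x, zero_div]; exact zero_mem _)
    rw [div_eq_mul_inv, Γ.mul _ _ r0 (inv_ne_zero hs), Γ.inv] at h2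
    have h3 := (hn Γ h1).trans (dg_le (h.sem.dg1 _ (p.cv h1)) hr r0)
    have h4 : Γ.v s ≤ Γ.v r := by exact_mod_cast h3
    omega
  obtain ⟨i, hi⟩ := fib_ne D.C p.der
  refine hi (by
    rw [h.big (fib D.C t) fun g hg => (?_ : RF D.x D.S1 ≤ Kz t) hg _ (fib_self D.C)]
    · rfl
    rw [RF, IntermediateField.adjoin_le_iff]
    rintro _ (⟨l, rfl⟩ | ⟨r, hr, r', hr', rfl⟩)
    · exact p.le (x_mem _ _ l)
    · rw [← div_div_div_cancel_right₀ hs]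
      exact div_mem (key r' hr') (key r hr))

theorem Pc.nn (p : Pc D t) (h : D.OK) (hm : t ∈ RF D.x D.S0) {Γ : DV L} (hΓ : Hor (Kz t) Γ) :
    ¬Null D.x D.S0 Γ := fun hn => by
  obtain ⟨s, hs, -⟩ := h.sem.dg0 _ (p.cv hΓ)
  have k : ∀ g ∈ RF D.x D.S0, ¬NC Γ g → g ∈ (⊥ : IntermediateField ℂ L) := fun g hg e => by
    by_contra x
    exact e (hΓ.nc (p.le hg) fun c y => x (y ▸ IntermediateField.algebraMap_mem _ c))
  have : RF D.x D.S0 ≤ ⊥ := by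
    rw [RF, IntermediateField.adjoin_le_iff]
    rintro _ (⟨l, rfl⟩ | ⟨r, hr, r', hr', rfl⟩)
    · exact k _ (x_mem _ _ l) (hn.1 l)
    · rw [← div_div_div_cancel_right₀ hs.2.1]
      exact div_mem (k _ (rat_mem _ hs.1 hr') (hn.2 s hs r' hr'))
        (k _ (rat_mem _ hs.1 hr) (hn.2 s hs r hr))
  obtain ⟨c, hc⟩ := IntermediateField.mem_bot.1 (this hm)
  exact ne_of_der p.der c hc.symm

theorem th_eq (D : SD L) (s : ℚ) (Γ : DV L) : D.th s Γ = D.α Γ + s * ∑ j, D.h j * D.β j Γ := by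
  rw [SD.th, SD.α, mul_sum, ← sum_add_distrib]
  exact sum_congr rfl fun j _ => by ring

theorem core_sum {j : D.A} {Γ : DV L} (h : D.Core j Γ) (c : D.A → ℚ) :
    ∑ k, c k * D.β k Γ = c j := by
  rw [sum_eq_single j (fun k _ hk => by rw [h.2.2 k hk, mul_zero]) (by simp), h.2.1, mul_one]

theorem cls_of (h : D.OK) {Γ : DV L} (hc : Cv D.x Γ) (hn : ¬Null D.x D.S1 Γ) :
    D.ex Γ = D.α Γ ∨ (D.α Γ = 0 ∧ Hon D.d D.v Γ (D.ex Γ)) :=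
  (h.kvl Γ hc hn).imp (fun ⟨_, x⟩ => x.1) fun x => ⟨by simp [SD.α, x.1], x.2⟩

theorem Pc.st (p : Pc D t) (h : StarS D.d D.v D.b (Kz t)) : D.St :=
  h.star (by rintro _ ⟨l, rfl⟩; exact p.le (x_mem _ _ l))

theorem Pc.death (p : Pc D t) (h : D.OK) (h0 : 0 < D.t0)
    (hc : ∀ Γ, Hor (Kz t) Γ → D.ex Γ = D.α Γ ∨ (D.α Γ = 0 ∧ Hon D.d D.v Γ (D.ex Γ))) : D.St := by
  obtain ⟨s₀, a0, a1⟩ := p.s0 h
  obtain ⟨Γ₀, h₀⟩ := p.hor h
  obtain ⟨s₁, ⟨b1, b0, -⟩, -⟩ := h.sem.dg1 _ (p.cv h₀)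
  have h1 := h.sem.t1
  obtain ⟨r, hr, p₀, p₁, e₀, e₁⟩ : ∃ r : ℚ, 0 < r ∧ ∃ p₀ p₁ : ℤ, r * D.t0 = p₀ ∧ r * D.t1 = p₁ :=
    ⟨D.t0.den * D.t1.den, by positivity, D.t0.num * D.t1.den, D.t1.num * D.t0.den, by
      push_cast; rw [← Rat.mul_den_eq_num]; ring, by push_cast; rw [← Rat.mul_den_eq_num]; ring⟩
  have q0 : (0 : ℚ) < p₀ := e₀ ▸ mul_pos hr h0
  have q1 : p₀ < p₁ := by
    have : (p₀ : ℚ) < p₁ := e₀ ▸ e₁ ▸ mul_lt_mul_of_pos_left h1 hr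
    exact_mod_cast this
  obtain ⟨n, hn⟩ := Int.eq_ofNat_of_zero_le (sub_pos.2 q1).le
  have hn' : (n : ℚ) = p₁ - p₀ := by exact_mod_cast hn.symm
  have key : ∀ Γ, Hor (Kz t) Γ → (Γ.v (s₁ ^ p₀ / s₀ ^ p₁) : ℚ) - ((D.m * n : ℕ) : ℚ) * D.α Γ =
      p₀ * (Γ.v s₁ + D.m * D.th D.t1 Γ) := fun Γ hΓ => by
    rw [div_eq_mul_inv, Γ.mul _ _ (zpow_ne_zero _ b0) (inv_ne_zero (zpow_ne_zero _ a0)), Γ.inv,
      dv_zpow Γ b0, dv_zpow Γ a0]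
    push_cast
    rw [a1 Γ hΓ, hn', th_eq, th_eq, ← e₀, ← e₁]
    ring
  refine p.st (stmtFibN L D.C D.d D.v D.b t (s₁ ^ p₀ / s₀ ^ p₁) (D.m * n) D.α h.vol.srf p.der
    (fun Γ hΓ => ⟨_, h.vol.exp _ (p.cv hΓ), hc Γ hΓ⟩) (Nat.mul_pos h.sem.m (by omega))
    (div_ne_zero (zpow_ne_zero _ b0) (zpow_ne_zero _ a0)) (fun Γ hΓ => ?_) ?_)
  · have := dg_le (h.sem.dg1 _ (p.cv hΓ)) b1 b0
    rw [← sub_nonneg, key Γ hΓ]
    exact mul_nonneg q0.le (by linarith)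
  · obtain ⟨Γ, hΓ, x⟩ := p.mov h b0
    exact ⟨Γ, hΓ, by rw [← sub_pos, key Γ hΓ]; exact mul_pos q0 (by linarith)⟩

theorem exists_pc (h : D.OK) (hp : ¬D.Pt) : ∃ t, t ∈ RF D.x D.S0 ∧ Pc D t := by
  by_contra hn
  push Not at hn
  exact hp fun g hg X => by_contra fun e => hn g hg (pc_of h ⟨X, e⟩ hg)

theorem Pc.zero (p : Pc D t) (h : D.OK) (h0 : D.t0 = 0) :
    ∃ φ, φ ≠ 0 ∧ ∀ Γ, Hor (Kz t) Γ → D.m * D.α Γ ≤ Γ.v φ := by
  obtain ⟨s, a0, a1⟩ := p.s0 h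
  refine ⟨s⁻¹, inv_ne_zero a0, fun Γ hΓ => ?_⟩
  rw [Γ.inv, Int.cast_neg, a1 Γ hΓ, th_eq, h0]
  simp

theorem Pc.pos (p : Pc D t) (h : D.OK) : ∃ Γ, Hor (Kz t) Γ ∧ 0 < D.th D.t1 Γ := by
  obtain ⟨Γ, hΓ, x⟩ := p.mov h one_ne_zero
  rw [Γ.one] at x
  have hm : (0 : ℚ) < D.m := by exact_mod_cast h.sem.m
  exact ⟨Γ, hΓ, (mul_pos_iff_of_pos_left hm).1 (by push_cast at x; linarith)⟩

theorem lf1 : LF1 := fun _ _ _ D h h0 hp => by
  obtain ⟨t, hm, p⟩ := exists_pc h hp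
  exact p.death h h0 fun Γ hΓ =>
    cls_of h (p.cv hΓ) fun e => p.nn h hm hΓ (h.nul Γ (p.cv hΓ) e).1

theorem lf2 : LF2 := fun _ _ _ D h h0 hp ⟨t, ht, hc⟩ => by
  have p : Pc D t := ⟨ht, fun g hg X _ => hp g hg X⟩
  refine p.death h h0 fun Γ hΓ => ?_
  by_cases e : Null D.x D.S1 Γ
  · exact Or.inl (hc Γ (p.cv hΓ) e (hΓ.nc (self_mem_Kz t) (ne_of_der ht)))
  · exact cls_of h (p.cv hΓ) e

theorem lf3 : LF3 := fun L _ _ D h h0 ⟨R, θ, hR, hc⟩ hz hp => by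
  obtain ⟨t, hm, p⟩ := exists_pc h hp
  obtain ⟨φ, a0, a1⟩ := p.zero h h0
  have nn : ∀ Γ, Hor (Kz t) Γ → ¬Null D.x D.S1 Γ := fun Γ hΓ e =>
    p.nn h hm hΓ (h.nul Γ (p.cv hΓ) e).1
  have co : ∀ Γ j, Hor (Kz t) Γ → D.Core j Γ → D.α Γ ≠ 0 := fun Γ j hΓ x e =>
    p.nn h hm hΓ (hz Γ j (p.cv hΓ) (nn Γ hΓ) x ((core_sum x D.al).symm.trans e)).1
  refine p.st (stmtFibZ L D.C D.d D.v D.b t φ D.m D.α h.vol.srf p.der
    (fun Γ hΓ => ⟨_, h.vol.exp _ (p.cv hΓ), ?_⟩) h.sem.m a0 a1 ?_)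
  · refine (h.kvl Γ (p.cv hΓ) (nn Γ hΓ)).imp (fun ⟨j, x⟩ => ⟨x.1, x.1 ▸ co Γ j hΓ x,
      fun m _ hm => ?_⟩) fun x => ⟨by simp [SD.α, x.1], x.2⟩
    obtain ⟨r, hr⟩ := exists_gn hR Γ
    obtain ⟨n, n1, n2⟩ := (hc Γ (p.cv hΓ) r hr).1
    rw [x.1, sub_self] at n1
    have n3 : 0 ≤ n := by exact_mod_cast n1
    exact ⟨_, AddSubgroup.subset_closure ⟨_, _, rfl⟩, fun k g hg =>
      Γ.F_anti (by omega) (n2 k g hg)⟩
  · obtain ⟨Γ, hΓ, x⟩ := p.pos h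
    rcases h.kvl Γ (p.cv hΓ) (nn Γ hΓ) with ⟨j, y⟩ | y
    · exact ⟨Γ, hΓ, co Γ j hΓ y⟩
    · simp [SD.th, y.1] at x

theorem lmx : LMX := fun L _ _ D h h0 _ ⟨Γ₀, l, c₀, n₀, e₀⟩ => by
  have p : Pc D (D.x l) :=
    pc_of h (exists_der D.C h.vol.srf.fin (tr_of_nc (nc_ne n₀))) (x_mem _ _ l)
  obtain ⟨φ, a0, a1⟩ := p.zero h h0
  have nc : ∀ Γ, Hor (Kz (D.x l)) Γ → NC Γ (D.x l) := fun Γ hΓ =>
    hΓ.nc (self_mem_Kz _) (nc_ne n₀)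
  have nn : ∀ Γ, Hor (Kz (D.x l)) Γ → ¬Null D.x D.S1 Γ := fun Γ hΓ e => e.1 l (nc Γ hΓ)
  have z := stmtFib0 L D.C D.d D.v D.b (D.x l) φ D.m D.α h.vol.srf p.der
    (fun Γ hΓ => ⟨_, h.vol.exp _ (p.cv hΓ), cls_of h (p.cv hΓ) (nn Γ hΓ)⟩) h.sem.m a0 a1
    ⟨Γ₀, hor_of_nc D.C h.vol.srf.fin c₀.sur n₀, by simpa [e₀] using h.vol.exp _ c₀⟩
  obtain ⟨Γ, hΓ, x⟩ := p.pos h
  rcases h.kvl Γ (p.cv hΓ) (nn Γ hΓ) with ⟨j, y⟩ | y
  · refine ⟨Γ, j, l, p.cv hΓ, nn Γ hΓ, y, (core_sum y D.al).symm.trans (z Γ hΓ), ?_, nc Γ hΓ⟩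
    rw [th_eq, z Γ hΓ, zero_add, core_sum y] at x
    exact (mul_pos_iff_of_pos_left (h0 ▸ h.sem.t1)).1 x
  · simp [SD.th, y.1] at x

end

end Pool.Agent.MP_ee8c61_ag.M3F
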