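import Pool.Agent.MP_ee8c61_ag.M3RESID.Defs

/-!
Fibred surfaces: the frame from the generic fibre.
-/

namespace Pool.Agent.MP_ee8c61_ag.M3F

open M3 M3RESID Polynomial
open scoped IntermediateField

noncomputable section

variable {L : Type} [Field L] [Algebra ℂ L]

/-- The common constants of a set of vector fields. -/
def cst (S : Set (VF L)) : IntermediateField ℂ L where
  carrier := {x | ∀ X ∈ S, X x = 0}
  mul_mem' := fun {a b} ha hb X hX => by simp [Derivation.leibniz, ha X hX, hb X hX]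
  one_mem' := fun X _ => by simp
  add_mem' := fun {a b} ha hb X hX => by simp [ha X hX, hb X hX]
  zero_mem' := fun X _ => by simp
  algebraMap_mem' := fun c X _ => by simp
  inv_mem' := fun a ha X hX => by simp [Derivation.leibniz_inv, ha X hX]

theorem mem_cst {S : Set (VF L)} {x : L} : x ∈ cst S ↔ ∀ X ∈ S, X x = 0 := Iff.rfl

/-- The functions that are constant on the fibres of `t`. -/
def Kz (t : L) : IntermediateField ℂ L := cst {X | X t = 0}

/-- The frame: modulo exact fields `v` is an Euler field in `y` over its field of constants,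
which contains `K₀`. -/
def StarS (d : Dv L) (v : VF L) (b : ℂ) (K₀ : IntermediateField ℂ L) : Prop :=
  ∃ (v' : VF L) (y : L) (g : ℚ), g ≠ 0 ∧ y ≠ 0 ∧ v - v' ∈ d.Ex ∧
    (g : L) * v' y = algebraMap ℂ L b * y ∧ K₀ ≤ cst {v'} ∧ (cst {v'})⟮y⟯ = ⊤

/-- A normalised valuation that is trivial on `K₀`. -/
def Hor (K₀ : IntermediateField ℂ L) (o : DV L) : Prop :=
  (∃ π, o.v π = 1) ∧ ∀ x ∈ K₀, x ∈ o.F 0

/-- Modulo exact fields `v` preserves the valuation ring. -/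
def Good (d : Dv L) (v : VF L) (o : DV L) : Prop :=
  ∃ u ∈ d.Ex, ∀ g ∈ o.F 0, (v - u) g ∈ o.F 0

/-- Modulo exact fields the form of `v` vanishes on the divisor of exponent `a`. -/
def Cap (d : Dv L) (v : VF L) (o : DV L) (a : ℤ) : Prop := ∃ u ∈ d.Ex, v - u ∈ LV o (1 - a)

/-- The zero of the irreducible polynomial `p` in `y` is an ordinary curve. -/
def Ord (d : Dv L) (v : VF L) (K₀ : IntermediateField ℂ L) (y : L) (p : K₀[X]) : Prop :=
  ∃ o : DV L, Hor K₀ o ∧ y ∈ o.F 0 ∧ aeval y p ∈ o.F 1 ∧ Exp d o 1 ∧ Good d v o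

/-- The field is the rational function field in `C.z 0` over `K₀`, and `C.z 1` is in `K₀`. -/
structure Rul (C : Co L 2) (K₀ : IntermediateField ℂ L) : Prop where
  gen : K₀⟮C.z 0⟯ = ⊤
  mem : C.z 1 ∈ K₀
  kill : ∀ x ∈ K₀, C.D 0 x = 0

/-- Two sections, the exponent is not an integer. -/
def StmtF1 : Prop := ∀ (L : Type) [Field L] [Algebra ℂ L] (C : Co L 2)
  (K₀ : IntermediateField ℂ L) (d : Dv L) (v : VF L) (b : ℂ) (a : ℚ) (a' : ℂ) (o o' : DV L),
  Rul C K₀ → b ≠ 0 → d.δ v = algebraMap ℂ L b → (∀ n : ℤ, a ≠ n) →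
  (∀ p : K₀[X], Irreducible p → p.coeff 0 ≠ 0 → Ord d v K₀ (C.z 0) p) →
  Hor K₀ o → o.v (C.z 0) = 1 → Exp d o a → Hor K₀ o' → o'.v (C.z 0) = -1 → Exp d o' a' →
  StarS d v b K₀

/-- Two sections, the exponent is a positive integer, and the form vanishes on that section. -/
def StmtF2 : Prop := ∀ (L : Type) [Field L] [Algebra ℂ L] (C : Co L 2)
  (K₀ : IntermediateField ℂ L) (d : Dv L) (v : VF L) (b : ℂ) (a : ℤ) (a' : ℂ) (o o' : DV L),
  Rul C K₀ → b ≠ 0 → d.δ v = algebraMap ℂ L b → 0 < a → Cap d v o a →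
  (∀ p : K₀[X], Irreducible p → p.coeff 0 ≠ 0 → Ord d v K₀ (C.z 0) p) →
  Hor K₀ o → o.v (C.z 0) = 1 → Exp d o a → Hor K₀ o' → o'.v (C.z 0) = -1 → Exp d o' a' →
  StarS d v b K₀

/-- One section. -/
def StmtF3 : Prop := ∀ (L : Type) [Field L] [Algebra ℂ L] (C : Co L 2)
  (K₀ : IntermediateField ℂ L) (d : Dv L) (v : VF L) (b : ℂ) (a' : ℂ) (o' : DV L),
  Rul C K₀ → b ≠ 0 → d.δ v = algebraMap ℂ L b →
  (∀ p : K₀[X], Irreducible p → Ord d v K₀ (C.z 0) p) →
  Hor K₀ o' → o'.v (C.z 0) = -1 → Exp d o' a' → StarS d v b K₀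

/-- A surface with a rationally twisted volume form and a primitive. -/
structure Srf (C : Co L 2) (d : Dv L) (v : VF L) (b : ℂ) : Prop where
  fin : FiniteDimensional (IntermediateField.adjoin ℂ (Set.range C.z)) L
  rat : ∃ (q : ℕ) (ψ : L), 0 < q ∧ ψ ≠ 0 ∧ ∀ X, d.δ X = C.dv.δ X + X ψ / (q * ψ)
  ne : b ≠ 0
  prim : d.δ v = algebraMap ℂ L b

/-- The exponent `a` at a curve that is not a core curve: an orbifold curve, or an ordinary
curve. -/
def Hon (d : Dv L) (v : VF L) (o : DV L) (a : ℚ) : Prop :=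
  (∃ r : ℕ, 2 ≤ r ∧ a = 1 / r) ∨ (a = 1 ∧ Good d v o)

/-- The class `α` has negative degree on the generic fibre of `t`. -/
def StmtFibN : Prop := ∀ (L : Type) [Field L] [Algebra ℂ L] (C : Co L 2) (d : Dv L) (v : VF L)
  (b : ℂ) (t φ : L) (n : ℕ) (α : DV L → ℚ), Srf C d v b → (∃ X : VF L, X t ≠ 0) →
  (∀ o, Hor (Kz t) o → ∃ a : ℚ, Exp d o a ∧ (a = α o ∨ (α o = 0 ∧ Hon d v o a))) →
  0 < n → φ ≠ 0 → (∀ o, Hor (Kz t) o → n * α o ≤ o.v φ) →
  (∃ o, Hor (Kz t) o ∧ n * α o < o.v φ) → StarS d v b (Kz t)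

/-- The class `α` has degree at most zero on the generic fibre of `t`, there is a core curve, no
core curve has exponent zero, core curves of positive integral exponent are capped. -/
def StmtFibZ : Prop := ∀ (L : Type) [Field L] [Algebra ℂ L] (C : Co L 2) (d : Dv L) (v : VF L)
  (b : ℂ) (t φ : L) (n : ℕ) (α : DV L → ℚ), Srf C d v b → (∃ X : VF L, X t ≠ 0) →
  (∀ o, Hor (Kz t) o → ∃ a : ℚ, Exp d o a ∧
    ((a = α o ∧ a ≠ 0 ∧ ∀ m : ℤ, a = m → 0 < m → Cap d v o m) ∨ (α o = 0 ∧ Hon d v o a))) →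
  0 < n → φ ≠ 0 → (∀ o, Hor (Kz t) o → n * α o ≤ o.v φ) →
  (∃ o, Hor (Kz t) o ∧ α o ≠ 0) → StarS d v b (Kz t)

end

end Pool.Agent.MP_ee8c61_ag.M3F
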