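import Pool.Agent.MP_ee8c61_ag.M3F.Spec
import Pool.Agent.MP_ee8c61_ag.M3H47.Expl

/-! Rows F1, F2, F3, and the frame from a locally finite primitive. -/

namespace Pool.Agent.MP_ee8c61_ag.M3F

open M3 M3RESID Polynomial
open scoped IntermediateField

variable {L : Type} [Field L] [Algebra ℂ L] {K₀ : IntermediateField ℂ L} {C : Co L 2} {d : Dv L}
  {v : VF L} {b : ℂ}

theorem top_of {v' : VF L} {y : L}
    (h : ∀ F : IntermediateField ℂ L, (∀ z, v' z = 0 → z ∈ F) → y ∈ F → F = ⊤) :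
    (cst {v'})⟮y⟯ = ⊤ := by
  have := h ((cst {v'})⟮y⟯.restrictScalars ℂ)
    (fun z hz => ((cst {v'})⟮y⟯).algebraMap_mem ⟨z, fun X hX => by rw [hX]; exact hz⟩)
    (IntermediateField.mem_adjoin_simple_self _ y)
  exact eq_top_iff.2 fun z _ => (this.ge IntermediateField.mem_top :)

theorem starS_of (h : M3H47.Star d v b K₀) : StarS d v b K₀ := by
  obtain ⟨v', y, g, h1, h2, h3, h4, h5, h6⟩ := h
  exact ⟨v', y, g, h1, h2, h3, h4, fun c hc X hX => by rw [hX]; exact h5 c hc, top_of h6⟩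

theorem Rul.tr (h : Rul C K₀) : Transcendental K₀ (C.z 0) := fun ha =>
  M3H47.transc (C.D 0) (y := C.z 0) (by simp [C.dual])
    (ha.tower_top_of_subalgebra_le (A := K₀.toSubalgebra) (B := (M3H47.cst (C.D 0)).toSubalgebra)
      fun x hx => h.kill x hx)

theorem Hor.cst {o : DV L} (h : Hor K₀ o) (c : ℂ) : algebraMap ℂ L c ∈ o.F 0 :=
  h.2 _ (K₀.algebraMap_mem c)

theorem Ord.good {y : L} {p : K₀[X]} (h : Ord d v K₀ y p) : M3H47.Good d v K₀ y p := by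
  obtain ⟨o, h1, h2, h3, h4, u, hu, h5⟩ := h
  obtain ⟨π, hπ⟩ := h1.1
  exact ⟨o.O, h1.2, h2, M3H47.F_nu h3, M3H47.reg_of_exp h1.cst hπ h4, u, hu, h5⟩

theorem good_of {y : L} (h : ∀ p : K₀[X], Irreducible p → p.coeff 0 ≠ 0 → Ord d v K₀ y p)
    (p : K₀[X]) (hp : Irreducible p) (hX : ¬p ∣ X) : M3H47.Good d v K₀ y p :=
  (h p hp fun e => hX (irreducible_X.associated_of_dvd hp (X_dvd_iff.2 e)).symm.dvd).good

theorem not_mem_of {o : DV L} {y : L} (hy : y ≠ 0) (h : o.v y = -1) : y ∉ o.O := fun e => by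
  have := (o.mem_O.1 e).resolve_left hy
  omega

theorem v_inv {o : DV L} {y : L} (h : o.v y = -1) : o.v y⁻¹ = 1 := by
  rw [o.inv, h, neg_neg]

theorem rowF1 : StmtF1 := fun _ _ _ C _ d v b a _ _ _ hR _ hv ha hp h0 v0 e0 h1 v1 e1 =>
  starS_of (M3H47.star_F1 C hR.tr hR.gen d v b hv a ha (good_of hp) h0.2
    (M3H47.F_nu (Or.inr v0.ge)) (M3H47.log_of_exp h0.cst v0 e0) (M3H47.logE_of_exp h0.cst v0 e0)
    h1.2 (not_mem_of (C.ne 0) v1) (M3H47.log_of_exp h1.cst (v_inv v1) e1))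

theorem rowF2 : StmtF2 := by
  intro L _ _ C K₀ d v b a _ o _ hR _ hv ha ⟨u, hu, hc⟩ hp h0 v0 e0 h1 v1 e1
  obtain ⟨n, rfl⟩ : ∃ n : ℕ, a = n + 1 := ⟨(a - 1).toNat, by omega⟩
  rw [show (1 : ℤ) - (n + 1) = -n by ring] at hc
  push_cast at e0
  exact starS_of (M3H47.star_F2 C hR.tr hR.gen d v b hv n (good_of hp) h0.2
    (M3H47.F_nu (Or.inr v0.ge)) (M3H47.log_of_exp h0.cst v0 e0) (M3H47.logE_of_exp h0.cst v0 e0)
    h1.2 (not_mem_of (C.ne 0) v1) (M3H47.log_of_exp h1.cst (v_inv v1) e1)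
    ⟨u, hu, M3H47.cap_of_lv v0 hc⟩)

theorem rowF3 : StmtF3 := fun _ _ _ C _ d v b _ _ hR hb hv hp h1 v1 e1 =>
  starS_of (M3H47.star_F3 C hR.tr hR.gen d v b hb hv (fun p h => (hp p h).good)
    h1.2 (not_mem_of (C.ne 0) v1) (M3H47.log_of_exp h1.cst (v_inv v1) e1))

/-- JORDAN: a primitive which, modulo exact fields, keeps a finite dimensional space of
generators. -/
theorem starS_of_fin (hS : Srf C d v b) {u : VF L} (hu : u ∈ d.Ex) (V : Submodule ℂ L)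
    [FiniteDimensional ℂ V] (hV : ∀ a ∈ V, (v - u) a ∈ V)
    (hg : IntermediateField.adjoin ℂ (V : Set L) = ⊤) : StarS d v b ⊥ := by
  have : CharZero L := charZero_of_injective_algebraMap (algebraMap ℂ L).injective
  obtain ⟨q, ψ, hq, hψ, hd⟩ := hS.rat
  have hq' : (q : L) ≠ 0 := Nat.cast_ne_zero.2 hq.ne'
  obtain ⟨v', y, -, -, r, -, -, -, h2, -, hy, hr, h3, h4, -⟩ :=
    (M3H47.fr_of C).frame d.δ d.smul hψ hq (fun i => by
      have : C.dv.δ (C.D i) = 0 := by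
        rw [C.dv_δ]
        exact Finset.sum_eq_zero fun j _ => by rw [C.dual]; split_ifs <;> simp
      rw [hd, this, zero_add]
      field_simp) (v - u) hS.ne (by rw [map_sub, d.δ_Ex hu, sub_zero, hS.prim]) V hV hg
  refine ⟨v', y, r⁻¹, inv_ne_zero hr, hy, ?_, ?_, bot_le, top_of fun F h5 h6 => h4 F h5 h6⟩
  · have h5 : v - u - v' ∈ d.Ex := h2 ▸ d.B_mem _ _
    have := add_mem h5 hu
    rwa [sub_right_comm, sub_add_cancel] at this
  · have : (r : L) ≠ 0 := Rat.cast_ne_zero.2 hr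
    rw [h3, Algebra.smul_def, map_mul, map_ratCast]
    push_cast
    field_simp

end Pool.Agent.MP_ee8c61_ag.M3F
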