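import Pool.Agent.MP_ee8c61_ag.M3F.Fib
import Pool.Agent.MP_ee8c61_ag.M3F.RF
import Pool.Agent.MP_ee8c61_ag.M3G.RGal
import Pool.Agent.MP_ee8c61_ag.M3G.RFF
import Pool.Agent.MP_ee8c61_ag.M3G.RUnr
import Pool.Agent.MP_ee8c61_ag.M3G.RDn
import Pool.Agent.MP_ee8c61_ag.M3G.RDesc
import Pool.Agent.MP_ee8c61_ag.M3G.RGF
import Pool.Agent.MP_ee8c61_ag.M3C.All
import Pool.Agent.MP_ee8c61_ag.M3.Defs

/-!
The fibred case without hypotheses.
-/

namespace Pool.Agent.MP_ee8c61_ag.M3F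

open M3 M3RESID
open scoped IntermediateField

theorem locC : M3C.StmtLoc := M3C.rowLoc M3C.rowDer

theorem resC : M3C.StmtRES := M3C.rowRES M3C.rowDer locC M3C.rowTr M3C.rowTrEv M3C.rowApx M3C.rowP1

theorem dualC : M3C.StmtDUAL := M3C.rowDUAL locC resC M3C.rowIdx (M3C.rowTheta locC resC)

theorem gf : M3G.StmtGF :=
  M3G.rowGF M3G.rowEx M3G.rowFF (M3G.rowDn M3G.rowUnr) (M3G.rowDesc M3G.rowGal) locC dualC

theorem stmtFibN : StmtFibN := fibN gf rowF1 rowF2 rowF3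

theorem stmtFibZ : StmtFibZ := fibZ gf rowF1 rowF2 rowF3

theorem stmtFib0 : StmtFib0 := fib0 gf

variable {L : Type} [Field L] [Algebra ℂ L]

theorem StarS.star {d : Dv L} {v : VF L} {b : ℂ} {K₀ : IntermediateField ℂ L}
    (h : StarS d v b K₀) {X : Set L} (hX : ∀ x ∈ X, x ∈ K₀) : STAR d v b X := by
  obtain ⟨v', y, g, h1, h2, h3, h4, h5, h6⟩ := h
  refine ⟨v', y, g, h1, h2, h3, h4, fun z => ?_, fun c hc => h5 (hX c hc) v' rfl⟩
  have hz : z ∈ (cst {v'})⟮y⟯ := h6 ▸ IntermediateField.mem_top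
  refine Subfield.closure_mono ?_ (show z ∈ Subfield.closure _ from hz)
  rintro _ (⟨c, rfl⟩ | rfl)
  · exact Or.inl (c.2 v' rfl)
  · exact Or.inr rfl

end Pool.Agent.MP_ee8c61_ag.M3F
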