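import Pool.Agent.MP_ee8c61_ag.M3F.Spec
import Pool.Agent.MP_ee8c61_ag.M3G.Spec

/-!
The generic fibre of a function on a surface as a function field.
-/

namespace Pool.Agent.MP_ee8c61_ag.M3F

open M3 M3RESID Polynomial WithZero Pool.Agent.MP_cce4c9_lc.H87
open scoped IntermediateField

noncomputable section

variable {L : Type} [Field L] [Algebra ℂ L]

theorem cz (L : Type) [Field L] [Algebra ℂ L] : CharZero L :=
  charZero_of_injective_algebraMap (algebraMap ℂ L).injective

/-- A field that kills `K₀` as a derivation over `K₀`. -/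
def rel (K₀ : IntermediateField ℂ L) (X : VF L) (h : ∀ x ∈ K₀, X x = 0) : Derivation K₀ L L :=
  Derivation.mk'
    { toFun := X
      map_add' := map_add X
      map_smul' := fun c x => by
        show X ((c : L) * x) = (c : L) * X x
        rw [Derivation.leibniz, h c c.2, smul_zero, add_zero, smul_eq_mul] }
    fun a b => X.leibniz a b

theorem rel_ap (K₀ : IntermediateField ℂ L) (X : VF L) (h : ∀ x ∈ K₀, X x = 0) (x : L) :
    rel K₀ X h x = X x := rfl

theorem kill_alg (K₀ : IntermediateField ℂ L) (X : VF L) (h : ∀ x ∈ K₀, X x = 0) {x : L}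
    (hx : IsAlgebraic K₀ x) : X x = 0 := by
  have := cz K₀
  have h1 := (rel K₀ X h).map_aeval (minpoly K₀ x) x
  rw [minpoly.aeval, map_zero, smul_eq_mul, rel_ap] at h1
  exact (mul_eq_zero.1 h1.symm).resolve_left
    ((minpoly.irreducible hx.isIntegral).separable.aeval_derivative_ne_zero (minpoly.aeval _ _))

/-- The field tangent to the fibres of `t`. -/
def fib (C : Co L 2) (t : L) : VF L := C.D 1 t • C.D 0 - C.D 0 t • C.D 1

variable (C : Co L 2) {t : L}

theorem fib_ap (g : L) : fib C t g = C.D 1 t * C.D 0 g - C.D 0 t * C.D 1 g := by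
  simp [fib]

theorem fib_self : fib C t t = 0 := by rw [fib_ap]; ring

theorem fib_z0 : fib C t (C.z 0) = C.D 1 t := by simp [fib_ap, C.dual]

theorem fib_z1 : fib C t (C.z 1) = -C.D 0 t := by simp [fib_ap, C.dual]

theorem fib_dv : C.dv.δ (fib C t) = 0 := by
  show ∑ i, C.D i (fib C t (C.z i)) = 0
  rw [Fin.sum_univ_two, fib_z0, fib_z1, map_neg, C.comm 0 1, add_neg_cancel]

theorem fib_ne (ht : ∃ X : VF L, X t ≠ 0) : ∃ i, fib C t (C.z i) ≠ 0 := by
  by_contra h
  push Not at h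
  obtain ⟨X, hX⟩ := ht
  have h0 := h 0
  have h1 := h 1
  rw [fib_z0] at h0
  rw [fib_z1, neg_eq_zero] at h1
  exact hX (by rw [C.exp_apply X t, Fin.sum_univ_two, h0, h1]; ring)

theorem fib_mul (ht : ∃ X : VF L, X t ≠ 0) {X : VF L} (hX : X t = 0) :
    ∃ κ : L, X = κ • fib C t := by
  rw [C.exp_apply X t, Fin.sum_univ_two] at hX
  obtain ⟨i, hi⟩ := fib_ne C ht
  refine ⟨X (C.z i) / fib C t (C.z i), sub_eq_zero.1 (C.span _ fun j => ?_)⟩
  rw [Derivation.sub_apply, Derivation.smul_apply, smul_eq_mul, sub_eq_zero, div_mul_eq_mul_div,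
    eq_div_iff hi]
  fin_cases i <;> fin_cases j <;>
    simp only [Fin.zero_eta, Fin.mk_one, Fin.isValue, fib_z0, fib_z1] <;>
    first | rfl | linear_combination hX | linear_combination -hX

theorem mem_Kz (ht : ∃ X : VF L, X t ≠ 0) {x : L} : x ∈ Kz t ↔ fib C t x = 0 := by
  refine ⟨fun h => h _ (fib_self C), fun h X hX => ?_⟩
  obtain ⟨κ, rfl⟩ := fib_mul C ht hX
  rw [Derivation.smul_apply, h, smul_zero]

theorem self_mem_Kz (t : L) : t ∈ Kz t := fun _ h => h

theorem cl_Kz (t : L) : M3G.Cl (Kz t) L := fun x hx =>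
  ⟨⟨x, fun X hX => kill_alg (Kz t) X (fun _ hy => hy X hX) hx⟩, rfl⟩

theorem alg_le {F E : IntermediateField ℂ L} (h : F ≤ E) {x : L} (hx : IsAlgebraic F x) :
    IsAlgebraic E x :=
  IsAlgebraic.tower_top_of_subalgebra_le (A := F.toSubalgebra) (B := E.toSubalgebra) h hx

theorem isFF_Kz (hf : FiniteDimensional (IntermediateField.adjoin ℂ (Set.range C.z)) L)
    (ht : ∃ X : VF L, X t ≠ 0) : IsFF (Kz t) L := by
  obtain ⟨i, hi⟩ := fib_ne C ht
  set z := C.z i
  have hz : Transcendental (Kz t) z := fun h =>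
    hi (kill_alg (Kz t) _ (fun _ hy => hy _ (fib_self C)) h)
  refine ⟨z, hz, ?_⟩
  have h1 : AlgebraicIndependent ℂ fun _ : Unit => t := by
    rw [algebraicIndependent_unique_type_iff]
    intro h
    obtain ⟨X, hX⟩ := ht
    refine hX (kill_alg ⊥ X (fun x hx => ?_) (h.tower_top _))
    obtain ⟨c, rfl⟩ := IntermediateField.mem_bot.1 hx
    simp
  have h2 : AlgebraicIndependent ℂ fun o : Option Unit => o.elim z fun _ => t := by
    refine AlgebraicIndependent.option_iff.2 ⟨h1, fun h => hz ?_⟩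
    refine IsAlgebraic.tower_top_of_subalgebra_le (B := (Kz t).toSubalgebra) ?_ h
    refine Algebra.adjoin_le ?_
    rintro _ ⟨_, rfl⟩
    exact self_mem_Kz t
  have h3 : Algebra.trdeg ℂ L ≤ Cardinal.mk (Option Unit) := by
    have : Algebra.IsAlgebraic (Algebra.adjoin ℂ (Set.range C.z)) L :=
      IntermediateField.isAlgebraic_adjoin_iff_top.1 inferInstance
    refine (Algebra.IsAlgebraic.trdeg_le_cardinalMk ℂ (Set.range C.z)).trans
      (Cardinal.mk_range_le.trans ?_)
    simp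
  have h4 := (h2.isTranscendenceBasis_of_trdeg_le_of_finite h3).isAlgebraic_field
  have : Algebra.IsAlgebraic (Kz t)⟮z⟯ L := ⟨fun x => by
    refine alg_le (E := ((Kz t)⟮z⟯).restrictScalars ℂ) ?_ (h4.isAlgebraic x)
    rw [IntermediateField.adjoin_le_iff]
    rintro _ ⟨_ | _, rfl⟩
    · exact IntermediateField.mem_adjoin_simple_self _ z
    · exact ((Kz t)⟮z⟯).algebraMap_mem ⟨t, self_mem_Kz t⟩⟩
  have : Algebra.EssFiniteType ℂ (IntermediateField.adjoin ℂ (Set.range C.z)) :=
    IntermediateField.essFiniteType_iff.2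
      (IntermediateField.fg_adjoin_of_finite (Set.finite_range _))
  have := Algebra.EssFiniteType.comp ℂ (IntermediateField.adjoin ℂ (Set.range C.z)) L
  have := Algebra.EssFiniteType.of_comp ℂ (Kz t) L
  have := Algebra.EssFiniteType.of_comp (Kz t) (Kz t)⟮z⟯ L
  exact Algebra.finite_of_essFiniteType_of_isAlgebraic

/-! ### Places and valuations -/

section Pl

variable {K₀ : IntermediateField ℂ L}

/-- The additive valuation of a place. -/
def dvOf (P : Place K₀ L) : DV L where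
  v := P.ord
  zero := P.ord_zero
  mul g h hg hh := P.ord_mul (P.val_ne hg) (P.val_ne hh)
  add g h hg hh hs := by
    have := P.val.map_add g h
    rw [P.val_eq (P.val_ne hg), P.val_eq (P.val_ne hh), P.val_eq (P.val_ne hs), le_max_iff,
      exp_le_exp, exp_le_exp] at this
    omega

theorem mem_F (P : Place K₀ L) {m : ℤ} {g : L} : g ∈ (dvOf P).F m ↔ P.val g ≤ exp (-m) := by
  by_cases h : g = 0
  · simp [h]
  · rw [DV.mem_F, P.val_le_exp (P.val_ne h), neg_neg]
    exact or_iff_right h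

theorem hor_dvOf (P : Place K₀ L) : Hor K₀ (dvOf P) :=
  ⟨⟨M3C.unif P, P.ord_eq (M3C.val_unif P)⟩, fun x hx =>
    (mem_F P).2 (by simpa using P.const_le ⟨x, hx⟩)⟩

omit [Algebra ℂ L] in
theorem dv_zpow (o : DV L) {g : L} (hg : g ≠ 0) (n : ℤ) : o.v (g ^ n) = n * o.v g := by
  induction n using Int.induction_on with
  | zero => simp [o.one]
  | succ n ih => rw [zpow_add_one₀ hg, o.mul _ _ (zpow_ne_zero _ hg) hg, ih]; ring
  | pred n ih =>
    rw [zpow_sub_one₀ hg, o.mul _ _ (zpow_ne_zero _ hg) (inv_ne_zero hg), ih, o.inv]; ring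

theorem exists_place {o : DV L} (h : Hor K₀ o) : ∃ P : Place K₀ L, dvOf P = o := by
  classical
  obtain ⟨⟨π, hπ⟩, hK⟩ := h
  have hπ0 : π ≠ 0 := fun e => by simp [e, o.zero] at hπ
  let w : Valuation L ℤᵐ⁰ :=
    { toFun := fun g => if g = 0 then 0 else exp (-o.v g)
      map_zero' := if_pos rfl
      map_one' := by simp [o.one]
      map_mul' := fun g h => by
        by_cases hg : g = 0
        · simp [hg]
        by_cases hh : h = 0
        · simp [hh]
        rw [if_neg (mul_ne_zero hg hh), if_neg hg, if_neg hh, o.mul g h hg hh, neg_add, exp_add]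
      map_add_le_max' := fun g h => by
        by_cases hg : g = 0
        · simp [hg]
        by_cases hh : h = 0
        · simp [hh]
        by_cases hs : g + h = 0
        · simp [hs]
        have := o.add g h hg hh hs
        simp only [if_neg hg, if_neg hh, if_neg hs, le_max_iff, exp_le_exp]
        omega }
  have hw : ∀ g, g ≠ 0 → w g = exp (-o.v g) := fun g hg => if_neg hg
  refine ⟨⟨w, fun y => ?_, fun a ha => ?_⟩, ?_⟩
  · by_cases hy : y = 0
    · exact ⟨0, by rw [hy, map_zero]⟩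
    · refine ⟨π ^ (-log y), ?_⟩
      rw [hw _ (zpow_ne_zero _ hπ0), dv_zpow o hπ0, hπ, mul_one, neg_neg, exp_log hy]
  · have h0 : (a : L) ≠ 0 := fun e => ha (Subtype.ext e)
    have h1 := (hK _ a.2).resolve_left h0
    have h2 := (hK _ (inv_mem a.2)).resolve_left (inv_ne_zero h0)
    rw [o.inv] at h2
    show w (a : L) = 1
    rw [hw _ h0, show o.v a = 0 by omega]
    simp
  · obtain ⟨v, h0, h1, h2⟩ := o
    simp only [dvOf, DV.mk.injEq]
    funext g
    by_cases hg : g = 0
    · rw [hg, h0, Place.ord_zero]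
    · exact Place.ord_eq _ (hw g hg)

theorem const_F (P : Place K₀ L) {c : ℂ} (h : algebraMap ℂ L c ∈ (dvOf P).F 1) : c = 0 := by
  by_contra hc
  have h1 := P.triv (algebraMap ℂ K₀ c) (by simpa using hc)
  rw [← IsScalarTower.algebraMap_apply] at h1
  rw [mem_F, h1, ← exp_zero, exp_le_exp] at h
  omega

/-- An Euler field at a valuation. -/
def Eul (o : DV L) (θ : VF L) : Prop := ∀ m, ∀ g ∈ o.F m, θ g - (m : L) * g ∈ o.F (m + 1)

theorem Eul.dlog {o : DV L} {θ : VF L} (h : Eul o θ) {g : L} (hg : g ≠ 0) :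
    θ g / g - (o.v g : L) ∈ o.F 1 := by
  have := o.F_mul (h _ g (o.mem_F_self g)) (o.mem_F_self g⁻¹)
  rw [o.inv, show o.v g + 1 + -o.v g = 1 by ring] at this
  rwa [show θ g / g - (o.v g : L) = (θ g - (o.v g : L) * g) * g⁻¹ by field_simp]

theorem exp_eul {d : Dv L} {o : DV L} {a : ℂ} (h : Exp d o a) (hπ : ∃ π, o.v π = 1) {θ : VF L}
    (hθ : Eul o θ) : d.δ θ - algebraMap ℂ L a ∈ o.F 1 := by
  obtain ⟨θ', h1, h2⟩ := h.eul
  obtain ⟨π, hπ⟩ := hπ
  have hπ0 : π ≠ 0 := fun e => by simp [e, o.zero] at hπ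
  have hp : π ∈ o.F 1 := hπ ▸ o.mem_F_self π
  have hZ : π⁻¹ • (θ - θ') ∈ LV o 0 := fun m g hg => by
    have e1 := o.F_mul (o.mem_F_self π⁻¹) (sub_mem (hθ m g hg) (h1 m g hg))
    rw [o.inv, hπ, show -1 + (m + 1) = m + 0 by ring] at e1
    rwa [Derivation.smul_apply, Derivation.sub_apply, smul_eq_mul,
      show θ g - θ' g = θ g - m * g - (θ' g - m * g) by ring]
  have e2 := d.smul π (π⁻¹ • (θ - θ'))
  rw [smul_smul, mul_inv_cancel₀ hπ0, one_smul, map_sub] at e2
  have e3 := add_mem (add_mem (o.F_mul hp (h.reg _ hZ)) (hZ 1 π hp)) h2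
  rwa [← e2, show d.δ θ - d.δ θ' + (d.δ θ' - algebraMap ℂ L a) = d.δ θ - algebraMap ℂ L a by
    ring] at e3

theorem eul_of {P : Place K₀ L} {X : VF L} {c : ℤ} {π : L} (hπ : P.val π = exp (-1 : ℤ))
    (hX : P.val (X π) = exp c) (hr : ∀ h, P.val h ≤ 1 → P.val (X h) ≤ exp c) :
    Eul (dvOf P) ((π / X π) • X) := fun m g hg => by
  have hπ0 : π ≠ 0 := fun e => by simp [e] at hπ; exact exp_ne_zero hπ.symm
  have hX0 : X π ≠ 0 := fun e => by simp [e] at hX; exact exp_ne_zero hX.symm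
  have hz : ∀ n : ℤ, P.val (π ^ n) = exp (-n) := fun n => by
    rw [map_zpow₀, hπ, ← exp_zsmul]; simp
  rw [mem_F] at hg ⊢
  have h1 : P.val (g * π ^ (-m)) ≤ 1 := by
    rw [map_mul, hz, neg_neg]
    exact (mul_le_mul_left hg _).trans_eq (by rw [← exp_add]; simp)
  have h2 : ((π / X π) • X) g - (m : L) * g = π / X π * π ^ m * X (g * π ^ (-m)) := by
    rw [Derivation.smul_apply, Derivation.leibniz, Derivation.leibniz_zpow, zpow_sub_one₀ hπ0,
      zpow_neg]
    have := zpow_ne_zero m hπ0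
    simp only [smul_eq_mul, zsmul_eq_mul, Int.cast_neg]
    field_simp
    ring
  rw [h2, map_mul, map_mul, map_div₀, hπ, hX, hz]
  refine (mul_le_mul_right (hr _ h1) _).trans_eq ?_
  rw [← exp_sub, ← exp_add, ← exp_add]
  exact congrArg exp (by ring)

/-- The exponent in terms of the twist and of the canonical divisor of the fibre. -/
theorem exp_eq {d : Dv L} {P : Place K₀ L} {a : ℚ} (h : Exp d (dvOf P) a) {X : VF L} {c : ℤ}
    {π ψ : L} {q : ℕ} (hq : 0 < q) (hψ : ψ ≠ 0) (hd : d.δ X = X ψ / (q * ψ))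
    (hπ : P.val π = exp (-1 : ℤ)) (hX : P.val (X π) = exp c)
    (hr : ∀ h, P.val h ≤ 1 → P.val (X h) ≤ exp c) : a = P.ord ψ / q + 1 + c := by
  have := cz L
  have hπ0 : π ≠ 0 := fun e => by simp [e] at hπ; exact exp_ne_zero hπ.symm
  have hX0 : X π ≠ 0 := fun e => by simp [e] at hX; exact exp_ne_zero hX.symm
  have hq0 : (q : L) ≠ 0 := Nat.cast_ne_zero.2 hq.ne'
  have hE := eul_of hπ hX hr
  have hρ := div_ne_zero hπ0 hX0
  have hρv : P.ord (π / X π) = 1 + c := P.ord_eq (by
    rw [map_div₀, hπ, hX, ← exp_sub]; exact congrArg exp (by ring))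
  have e1 := exp_eul h (hor_dvOf P).1 hE
  have e2 := (dvOf P).F_mul ((hor_dvOf P).2 _ (inv_mem (natCast_mem K₀ q))) (hE.dlog hψ)
  have e3 := hE.dlog hρ
  have e4 := sub_mem (add_mem e2 e3) e1
  have e5 : ((a - (P.ord ψ / q + 1 + c) : ℚ) : ℂ) = 0 := by
    refine const_F P ?_
    refine (congrArg (· ∈ (dvOf P).F 1) ?_).mp e4
    rw [d.smul, hd, show (dvOf P).v (π / X π) = 1 + c from hρv,
      show (dvOf P).v ψ = P.ord ψ from rfl]
    simp only [Derivation.smul_apply, smul_eq_mul, map_ratCast]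
    push_cast
    field_simp
    ring
  exact sub_eq_zero.1 (by exact_mod_cast e5)

end Pl

end

end Pool.Agent.MP_ee8c61_ag.M3F
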