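import Pool.Agent.MP_ee8c61_ag.M3F.Kit

/-!
The frame of a fibred surface from the degrees on the generic fibre.
-/

namespace Pool.Agent.MP_ee8c61_ag.M3F

open M3 M3RESID Polynomial WithZero Pool.Agent.MP_cce4c9_lc.H87 Finset
open scoped IntermediateField

noncomputable section

/-- A horizontal curve of exponent zero forces the class `α` to vanish on all horizontal
curves. -/
def StmtFib0 : Prop := ∀ (L : Type) [Field L] [Algebra ℂ L] (C : Co L 2) (d : Dv L) (v : VF L)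
  (b : ℂ) (t φ : L) (n : ℕ) (α : DV L → ℚ), Srf C d v b → (∃ X : VF L, X t ≠ 0) →
  (∀ o, Hor (Kz t) o → ∃ a : ℚ, Exp d o a ∧ (a = α o ∨ (α o = 0 ∧ Hon d v o a))) →
  0 < n → φ ≠ 0 → (∀ o, Hor (Kz t) o → n * α o ≤ o.v φ) →
  (∃ o, Hor (Kz t) o ∧ Exp d o 0) → ∀ o, Hor (Kz t) o → α o = 0

variable {L : Type} [Field L] [Algebra ℂ L] {C : Co L 2} {d : Dv L} {v : VF L} {b : ℂ} {t : L}

theorem rul (C : Co L 2) (ht : ∃ X : VF L, X t ≠ 0) {y : L} (hy : (Kz t)⟮y⟯ = ⊤) :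
    ∃ C' : Co L 2, C'.z 0 = y ∧ Rul C' (Kz t) := by
  have hY : fib C t y ≠ 0 := fun h => by
    obtain ⟨i, hi⟩ := fib_ne C ht
    have h1 : (Kz t)⟮y⟯ = ⊥ := IntermediateField.adjoin_simple_eq_bot_iff.2
      ⟨⟨y, (mem_Kz C ht).2 h⟩, rfl⟩
    obtain ⟨x, hx⟩ := IntermediateField.mem_bot.1
      (h1 ▸ hy ▸ IntermediateField.mem_top : C.z i ∈ (⊥ : IntermediateField (Kz t) L))
    exact hi (hx ▸ (mem_Kz C ht).1 x.2)
  obtain ⟨X, hX⟩ := id ht
  refine ⟨⟨![y, t], ![(fib C t y)⁻¹ • fib C t, (X t)⁻¹ • (X - (X y / fib C t y) • fib C t)],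
    fun i => ?_, fun i j => ?_, fun Z hZ => ?_⟩, rfl, hy, self_mem_Kz t, fun x hx => ?_⟩
  · fin_cases i
    · exact fun h => hY (by rw [show y = 0 from h, map_zero])
    · exact fun h => hX (by rw [show t = 0 from h, map_zero])
  · fin_cases i <;> fin_cases j <;> simp [fib_self, hY, hX]
  · obtain ⟨κ, rfl⟩ := fib_mul C ht (hZ 1)
    have : κ * fib C t y = 0 := hZ 0
    rw [(mul_eq_zero.1 this).resolve_right hY, zero_smul]
  · show ((fib C t y)⁻¹ • fib C t) x = 0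
    rw [Derivation.smul_apply, (mem_Kz C ht).1 hx, smul_zero]

section Deg

variable {K₀ : IntermediateField ℂ L} {Y : Derivation K₀ L L} {g : ℕ} {N : Place K₀ L → ℕ}

theorem exists_zero (hD : M3G.Deg Y g N) {z : L} {P₀ : Place K₀ L} (h : P₀.ord z < 0) :
    ∃ P : Place K₀ L, 0 < P.ord z := by
  by_contra hn
  push Not at hn
  have h1 := hD.deg z (hD.fin z).toFinset fun P hP => by simpa using hP
  refine absurd h1 (ne_of_lt ?_)
  refine sum_neg' (fun P _ => mul_nonpos_of_nonneg_of_nonpos (Int.natCast_nonneg _) (hn P))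
    ⟨P₀, by simpa using h.ne, mul_neg_of_pos_of_neg (by exact_mod_cast hD.pos P₀) h⟩

theorem simple_zero (hD : M3G.Deg Y g N) {y : L} {P₀ P₁ : Place K₀ L} (h₀ : N P₀ = 1)
    (hy : P₀.ord y = -1) (hr : ∀ P, P ≠ P₀ → P.val y ≤ 1) (h₁ : P₁.val y < 1) : P₁.ord y = 1 := by
  classical
  have hy0 : y ≠ 0 := fun e => by simp [e] at hy
  have h2 := (P₁.val_lt_one (P₁.val_ne hy0)).1 h₁
  have hne : P₁ ≠ P₀ := fun e => by rw [e] at h2; omega
  have h1 := hD.deg y (hD.fin y).toFinset fun P hP => by simpa using hP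
  have m0 : P₀ ∈ (hD.fin y).toFinset := by simp [hy]
  have m1 : P₁ ∈ (hD.fin y).toFinset.erase P₀ := mem_erase.2 ⟨hne, by simpa using h2.ne'⟩
  rw [← add_sum_erase _ _ m0, h₀, hy] at h1
  have h3 := single_le_sum (f := fun P => (N P : ℤ) * P.ord y) (fun P hP =>
    mul_nonneg (Int.natCast_nonneg _)
      ((P.val_le_one (P.val_ne hy0)).1 (hr P (mem_erase.1 hP).1))) m1
  have h4 : (1 : ℤ) ≤ N P₁ := by exact_mod_cast hD.pos P₁
  have h5 := le_mul_of_one_le_left h2.le h4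
  push_cast at h1
  omega

theorem ord_place (hD : M3G.Deg Y g N) {y : L} {P₀ : Place K₀ L} (hy : P₀.ord y = -1)
    {p : K₀[X]} (hp : Irreducible p) : ∃ P, P ≠ P₀ ∧ P.val (aeval y p) < 1 := by
  have hy0 : y ≠ 0 := fun e => by simp [e] at hy
  have : P₀.val.IsTrivialOn K₀ := ⟨P₀.triv⟩
  have h1 : P₀.val y = exp 1 := by rw [P₀.val_eq (P₀.val_ne hy0), hy, neg_neg]
  have h2 := valuation_aeval_eq_valuation_X_pow_natDegree_of_one_lt_valuation_X (v := P₀.val) y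
    (by rw [h1, ← exp_zero, exp_lt_exp]; omega) hp.ne_zero
  have h3 : P₀.ord (aeval y p) = -p.natDegree := P₀.ord_eq (by
    rw [h2, h1, ← exp_nsmul]; simp)
  have h4 : 0 < p.natDegree := hp.natDegree_pos
  obtain ⟨P, hP⟩ := exists_zero hD (z := aeval y p) (P₀ := P₀) (by omega)
  have h5 : aeval y p ≠ 0 := fun e => by simp [e] at hP
  exact ⟨P, fun e => by rw [e] at hP; omega, (P.val_lt_one (P.val_ne h5)).2 hP⟩

theorem lt_iff (P : Place K₀ L) {z : L} : P.val z < 1 ↔ z ∈ (dvOf P).F 1 := by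
  by_cases h : z = 0
  · simp [h]
  · rw [mem_F, P.val_lt_one (P.val_ne h), P.val_le_exp (P.val_ne h)]; omega

theorem val_coeff {P : Place K₀ L} {y : L} (hy : P.val y < 1) {p : K₀[X]} (hp : p.coeff 0 ≠ 0) :
    P.val (aeval y p) = 1 := by
  have h1 : ∀ r : K₀[X], P.val (aeval y r) ≤ 1 := fun r => by
    rw [aeval_eq_sum_range]
    refine P.val.map_sum_le fun i _ => ?_
    rw [Algebra.smul_def, map_mul, map_pow]
    exact mul_le_one' (P.const_le _) (pow_le_one' hy.le _)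
  rw [← X_mul_divX_add p, map_add, map_mul, aeval_X, aeval_C,
    P.val.map_add_eq_of_lt_right, P.triv _ hp]
  rw [P.triv _ hp, map_mul]
  exact (mul_le_of_le_one_right' (h1 _)).trans_lt hy

end Deg

section Main

variable {Y : Derivation (Kz t) L L} {N : Place (Kz t) L → ℕ}

theorem fin1 (F3 : StmtF3) (hS : Srf C d v b) (ht : ∃ X : VF L, X t ≠ 0) (hD : M3G.Deg Y 0 N)
    {P₀ : Place (Kz t) L} (h₀ : N P₀ = 1) {a : ℂ} (ha : Exp d (dvOf P₀) a)
    (hr : ∀ P, P ≠ P₀ → Exp d (dvOf P) 1 ∧ Good d v (dvOf P)) : StarS d v b (Kz t) := by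
  obtain ⟨y, h1, h2, h3, -⟩ := hD.rat rfl P₀ h₀
  obtain ⟨C', rfl, hC⟩ := rul C ht h3
  refine F3 L C' _ d v b a _ hC hS.ne hS.prim (fun p hp => ?_) (hor_dvOf P₀) h1 ha
  obtain ⟨P, hP, h⟩ := ord_place hD h1 hp
  exact ⟨_, hor_dvOf P, (mem_F P).2 (h2 P hP), (lt_iff P).1 h, hr P hP⟩

theorem fin2 (F1 : StmtF1) (F2 : StmtF2) (hS : Srf C d v b) (ht : ∃ X : VF L, X t ≠ 0)
    (hD : M3G.Deg Y 0 N) {P₀ P₁ : Place (Kz t) L} (h₀ : N P₀ = 1) (h₁ : N P₁ = 1) (hne : P₁ ≠ P₀)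
    {a' : ℂ} (ha' : Exp d (dvOf P₀) a') {a : ℚ} (ha : Exp d (dvOf P₁) a)
    (hc : ∀ m : ℤ, a = m → 0 < m ∧ Cap d v (dvOf P₁) m)
    (hr : ∀ P, P ≠ P₀ → P ≠ P₁ → Exp d (dvOf P) 1 ∧ Good d v (dvOf P)) : StarS d v b (Kz t) := by
  obtain ⟨y, h1, h2, h3, h4⟩ := hD.rat rfl P₀ h₀
  obtain ⟨c, hc1⟩ := h4 P₁ h₁ hne
  have hy0 : y ≠ 0 := fun e => by simp [e] at h1
  have g1 : P₀.ord (y - algebraMap _ L c) = -1 := P₀.ord_eq (by
    have e : P₀.val y = exp 1 := by rw [P₀.val_eq (P₀.val_ne hy0), h1, neg_neg]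
    rw [P₀.val.map_sub_eq_of_lt_left, e, neg_neg]
    exact (P₀.const_le c).trans_lt (by rw [e, ← exp_zero, exp_lt_exp]; omega))
  have g2 : ∀ P, P ≠ P₀ → P.val (y - algebraMap _ L c) ≤ 1 := fun P hP =>
    (P.val.map_sub _ _).trans (max_le (h2 P hP) (P.const_le c))
  have g3 : (Kz t)⟮y - algebraMap _ L c⟯ = ⊤ := by
    rw [eq_top_iff, ← h3, IntermediateField.adjoin_simple_le_iff]
    simpa using add_mem (IntermediateField.mem_adjoin_simple_self (Kz t) (y - algebraMap _ L c))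
      (IntermediateField.algebraMap_mem _ c)
  have g4 := simple_zero hD h₀ g1 g2 hc1
  obtain ⟨C', e, hC⟩ := rul C ht g3
  rw [← e] at g1 g2 g4 hc1
  have hO : ∀ p : (Kz t)[X], Irreducible p → p.coeff 0 ≠ 0 → Ord d v (Kz t) (C'.z 0) p :=
    fun p hp h0 => by
      obtain ⟨P, hP, h⟩ := ord_place hD g1 hp
      exact ⟨_, hor_dvOf P, (mem_F P).2 (g2 P hP), (lt_iff P).1 h,
        hr P hP fun e => h.ne (e ▸ val_coeff hc1 h0)⟩
  by_cases hz : ∃ m : ℤ, a = m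
  · obtain ⟨m, rfl⟩ := hz
    exact F2 L C' _ d v b m a' _ _ hC hS.ne hS.prim (hc m rfl).1 (hc m rfl).2 hO (hor_dvOf P₁) g4
      (by simpa using ha) (hor_dvOf P₀) g1 ha'
  · exact F1 L C' _ d v b a a' _ _ hC hS.ne hS.prim (fun m e => hz ⟨m, e⟩) hO (hor_dvOf P₁) g4
      ha (hor_dvOf P₀) g1 ha'

end Main

/-- The numerical data on the generic fibre. -/
structure Num (d : Dv L) (t φ : L) (n : ℕ) (α : DV L → ℚ) (g : ℕ) (N : Place (Kz t) L → ℕ)
    (A : Place (Kz t) L → ℚ) (S : Finset (Place (Kz t) L)) : Prop where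
  uniq : ∀ P (a : ℚ), Exp d (dvOf P) a → a = A P
  off : ∀ P, P ∉ S → A P = 1 ∧ P.ord φ = 0
  can : ∑ P ∈ S, (N P : ℚ) * (A P - 1) = 2 * g - 2
  deg : ∑ P ∈ S, (N P : ℚ) * P.ord φ = 0

theorem num (GF : M3G.StmtGF) (hS : Srf C d v b) (ht : ∃ X : VF L, X t ≠ 0) (φ : L) (n : ℕ)
    (α : DV L → ℚ) : ∃ (Y : Derivation (Kz t) L L) (g : ℕ) (N : Place (Kz t) L → ℕ)
      (A : Place (Kz t) L → ℚ) (S : Finset (Place (Kz t) L)),
      M3G.Deg Y g N ∧ Num d t φ n α g N A S := by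
  classical
  have := cz (Kz t)
  let Y := rel (Kz t) (fib C t) fun _ hy => hy _ (fib_self C)
  have hY : Y ≠ 0 := fun h => by
    obtain ⟨i, hi⟩ := fib_ne C ht
    exact hi (congrArg (fun Z : Derivation (Kz t) L L => Z (C.z i)) h)
  obtain ⟨g, N, hD⟩ := GF (Kz t) L (isFF_Kz C hS.fin ht) (cl_Kz t) Y hY
  obtain ⟨q, ψ, hq, hψ, hd⟩ := hS.rat
  let S := (hD.fin φ).toFinset ∪ (hD.fin ψ).toFinset ∪ hD.finc.toFinset
  have hS : ∀ P, P ∉ S → P.ord φ = 0 ∧ P.ord ψ = 0 ∧ M3C.cw Y P = 0 := fun P hP => by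
    simpa [S, and_assoc] using hP
  refine ⟨Y, g, N, fun P => P.ord ψ / q + 1 + M3C.cw Y P, S, hD, fun P a ha => ?_,
    fun P hP => ⟨by simp [hS P hP], (hS P hP).1⟩, ?_, ?_⟩
  · exact exp_eq ha hq hψ (by rw [hd, fib_dv, zero_add]) (M3C.val_unif P)
      (hD.uni P _ (M3C.val_unif P)) (hD.reg P)
  · have h1 : ∑ P ∈ S, (N P : ℚ) * P.ord ψ = 0 := by
      exact_mod_cast hD.deg ψ S fun P hP => (hS P hP).2.1
    have h2 : ∑ P ∈ S, (N P : ℚ) * M3C.cw Y P = 2 * g - 2 := by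
      exact_mod_cast hD.can S fun P hP => (hS P hP).2.2
    rw [← h2, ← zero_add (∑ P ∈ S, (N P : ℚ) * M3C.cw Y P), ← zero_div (q : ℚ), ← h1, sum_div,
      ← sum_add_distrib]
    exact sum_congr rfl fun P _ => by ring
  · exact_mod_cast hD.deg φ S fun P hP => (hS P hP).1

section Count

variable {ι : Type} {S : Finset ι} {N : ι → ℕ} {c : ι → ℚ}

theorem le_one (hc : ∀ i ∈ S, 0 ≤ c i) {i : ι} (hi : i ∈ S) :
    (N i : ℚ) * c i ≤ ∑ P ∈ S, (N P : ℚ) * c P :=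
  single_le_sum (f := fun P => (N P : ℚ) * c P)
    (fun P hP => mul_nonneg (Nat.cast_nonneg _) (hc P hP)) hi

theorem le_two (hc : ∀ i ∈ S, 0 ≤ c i) {i j : ι} (hi : i ∈ S) (hj : j ∈ S) (h : i ≠ j) :
    (N i : ℚ) * c i + N j * c j ≤ ∑ P ∈ S, (N P : ℚ) * c P := by
  classical
  rw [← sum_pair (f := fun P => (N P : ℚ) * c P) h]
  exact sum_le_sum_of_subset_of_nonneg (by simp [insert_subset_iff, hi, hj])
    fun P hP _ => mul_nonneg (Nat.cast_nonneg _) (hc P hP)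

theorem le_three (hc : ∀ i ∈ S, 0 ≤ c i) {i j k : ι} (hi : i ∈ S) (hj : j ∈ S) (hk : k ∈ S)
    (h : i ≠ j) (h' : i ≠ k) (h'' : j ≠ k) :
    (N i : ℚ) * c i + N j * c j + N k * c k ≤ ∑ P ∈ S, (N P : ℚ) * c P := by
  classical
  rw [add_assoc, ← sum_pair (f := fun P => (N P : ℚ) * c P) h'',
    ← sum_insert (f := fun P => (N P : ℚ) * c P) (by simp [h, h'])]
  exact sum_le_sum_of_subset_of_nonneg (by simp [insert_subset_iff, hi, hj, hk])
    fun P hP _ => mul_nonneg (Nat.cast_nonneg _) (hc P hP)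

end Count

theorem hon_c {o : DV L} {a : ℚ} (h : Hon d v o a) :
    (a = 1 ∧ Good d v o) ∨ (0 < a ∧ a ≤ 1 / 2) := by
  rcases h with ⟨r, hr, rfl⟩ | h
  · have : (2 : ℚ) ≤ r := by exact_mod_cast hr
    exact Or.inr ⟨by positivity, one_div_le_one_div_of_le (by norm_num) this⟩
  · exact Or.inl h

/-- The common part of the three statements. -/
structure Cls (d : Dv L) (v : VF L) (t : L) (α : DV L → ℚ) (g : ℕ) (N : Place (Kz t) L → ℕ)
    (A : Place (Kz t) L → ℚ) (S : Finset (Place (Kz t) L)) : Prop where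
  exp : ∀ P, Exp d (dvOf P) (A P)
  cls : ∀ P, A P = α (dvOf P) ∨
    (α (dvOf P) = 0 ∧ ((A P = 1 ∧ Good d v (dvOf P)) ∨ (0 < A P ∧ A P ≤ 1 / 2)))
  off : ∀ P, P ∉ S → A P = 1 ∧ α (dvOf P) = 0
  sum : ∑ P ∈ S, (N P : ℚ) * (α (dvOf P) - A P + 1) = ∑ P ∈ S, (N P : ℚ) * α (dvOf P) + 2 - 2 * g
  le : ∑ P ∈ S, (N P : ℚ) * α (dvOf P) ≤ 0

variable {φ : L} {n : ℕ} {α : DV L → ℚ} {g : ℕ} {N : Place (Kz t) L → ℕ}
  {A : Place (Kz t) L → ℚ} {S : Finset (Place (Kz t) L)}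

theorem Num.cls (h : Num d t φ n α g N A S)
    (h1 : ∀ o, Hor (Kz t) o → ∃ a : ℚ, Exp d o a ∧ (a = α o ∨ (α o = 0 ∧ Hon d v o a)))
    (hn : 0 < n) (h2 : ∀ o, Hor (Kz t) o → n * α o ≤ o.v φ) : Cls d v t α g N A S := by
  have hn' : (0 : ℚ) < n := by exact_mod_cast hn
  have e : ∀ P, Exp d (dvOf P) (A P) ∧ (A P = α (dvOf P) ∨ (α (dvOf P) = 0 ∧
      ((A P = 1 ∧ Good d v (dvOf P)) ∨ (0 < A P ∧ A P ≤ 1 / 2)))) := fun P => by
    obtain ⟨a, ha, hb⟩ := h1 _ (hor_dvOf P)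
    obtain rfl := h.uniq P a ha
    exact ⟨ha, hb.imp_right fun x => ⟨x.1, hon_c x.2⟩⟩
  refine ⟨fun P => (e P).1, fun P => (e P).2, fun P hP => ⟨(h.off P hP).1, ?_⟩, ?_, ?_⟩
  · refine ((e P).2.resolve_left fun x => ?_).1
    have := h2 _ (hor_dvOf P)
    rw [← x, (h.off P hP).1, show (dvOf P).v φ = 0 from (h.off P hP).2] at this
    push_cast at this
    linarith
  · have : ∑ P ∈ S, (N P : ℚ) * (α (dvOf P) - A P + 1) =
        ∑ P ∈ S, (N P : ℚ) * α (dvOf P) - ∑ P ∈ S, (N P : ℚ) * (A P - 1) := by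
      rw [← sum_sub_distrib]
      exact sum_congr rfl fun P _ => by ring
    rw [this, h.can]
    ring
  · refine le_of_mul_le_mul_left ?_ hn'
    rw [mul_zero, ← h.deg, mul_sum]
    refine sum_le_sum fun P _ => ?_
    rw [mul_left_comm]
    exact mul_le_mul_of_nonneg_left (h2 _ (hor_dvOf P)) (Nat.cast_nonneg _)

theorem Cls.nn (h : Cls d v t α g N A S) (P : Place (Kz t) L) (_ : P ∈ S) :
    0 ≤ α (dvOf P) - A P + 1 := by
  rcases h.cls P with e | ⟨e, ⟨e', -⟩ | ⟨-, e'⟩⟩ <;> linarith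

theorem Cls.core (h : Cls d v t α g N A S) {P : Place (Kz t) L} (e : α (dvOf P) ≠ 0) :
    P ∈ S ∧ A P = α (dvOf P) :=
  ⟨by_contra fun x => e (h.off P x).2, (h.cls P).resolve_right fun x => e x.1⟩

theorem Cls.neg (h : Cls d v t α g N A S) (hN : ∀ P, 0 < N P)
    (h0 : ∃ P : Place (Kz t) L, α (dvOf P) ≠ 0) : ∃ P : Place (Kz t) L, α (dvOf P) < 0 := by
  by_contra hn
  push Not at hn
  obtain ⟨P, hP⟩ := h0
  have h1 := le_one (N := N) (c := fun P => α (dvOf P)) (fun P _ => hn P) (h.core hP).1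
  have h2 : (0 : ℚ) < N P := by exact_mod_cast hN P
  have h3 := mul_pos h2 (lt_of_le_of_ne (hn P) hP.symm)
  linarith [h.le]

theorem Cls.pos (h : Cls d v t α g N A S) (hN : ∀ P, 0 < N P)
    (h0 : ∑ P ∈ S, (N P : ℚ) * α (dvOf P) = 0) {P : Place (Kz t) L} (hP : α (dvOf P) < 0) :
    ∃ P : Place (Kz t) L, 0 < α (dvOf P) := by
  by_contra hn
  push Not at hn
  refine absurd h0 (ne_of_lt (sum_neg' (fun P _ => mul_nonpos_of_nonneg_of_nonpos
    (Nat.cast_nonneg _) (hn P)) ⟨P, (h.core hP.ne).1, mul_neg_of_pos_of_neg ?_ hP⟩))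
  exact_mod_cast hN P

theorem star_neg (F1 : StmtF1) (F2 : StmtF2) (F3 : StmtF3) (hS : Srf C d v b)
    (ht : ∃ X : VF L, X t ≠ 0) {Y : Derivation (Kz t) L L} (hD : M3G.Deg Y g N)
    (h : Cls d v t α g N A S) (hlt : ∑ P ∈ S, (N P : ℚ) * α (dvOf P) < 0) :
    StarS d v b (Kz t) := by
  have hN : ∀ P, (1 : ℚ) ≤ N P := fun P => by exact_mod_cast hD.pos P
  obtain ⟨P₀, h₀⟩ := h.neg hD.pos (by
    by_contra x
    push Not at x
    simp [x] at hlt)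
  obtain ⟨m₀, e₀⟩ := h.core h₀.ne
  have s1 := le_one (N := N) h.nn m₀
  rw [h.sum, e₀] at s1
  have hg : g = 0 := by
    have : (g : ℚ) < 1 := by linarith [hN P₀]
    exact Nat.lt_one_iff.1 (by exact_mod_cast this)
  subst hg
  have n₀ : N P₀ = 1 := by
    have : (N P₀ : ℚ) < 2 := by push_cast at s1; linarith
    have h1 : N P₀ < 2 := by exact_mod_cast this
    have := hD.pos P₀
    omega
  have key : ∀ P, P ≠ P₀ → (A P = 1 ∧ Good d v (dvOf P)) ∨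
      (P ∈ S ∧ α (dvOf P) = 0 ∧ 0 < A P ∧ A P ≤ 1 / 2) := fun P hP => by
    rcases h.cls P with e | ⟨e, e' | e'⟩
    · exfalso
      have m : P ∈ S := by_contra fun x => by linarith [h.off P x |>.1, h.off P x |>.2]
      have s2 := le_two (N := N) h.nn m₀ m hP.symm
      rw [h.sum, e₀, e] at s2
      push_cast at s2
      linarith [hN P, hN P₀]
    · exact Or.inl e'
    · exact Or.inr ⟨by_contra fun x => by linarith [h.off P x |>.1], e, e'⟩
  by_cases hx : ∃ P, P ≠ P₀ ∧ P ∈ S ∧ α (dvOf P) = 0 ∧ 0 < A P ∧ A P ≤ 1 / 2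
  · obtain ⟨P₁, hne, m₁, a₁, b₁, c₁⟩ := hx
    have n₁ : N P₁ = 1 := by
      have s2 := le_two (N := N) h.nn m₀ m₁ hne.symm
      rw [h.sum, e₀, a₁] at s2
      have : (N P₁ : ℚ) < 2 := by push_cast at s2; nlinarith [hN P₀, hN P₁]
      have h1 : N P₁ < 2 := by exact_mod_cast this
      have := hD.pos P₁
      omega
    refine fin2 F1 F2 hS ht hD n₀ n₁ hne (h.exp P₀) (h.exp P₁) (fun m hm => ?_) fun P x y => ?_
    · rw [hm] at b₁ c₁
      have h1 : 0 < m := by exact_mod_cast b₁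
      have h2 : (1 : ℚ) ≤ m := by exact_mod_cast h1
      linarith
    · rcases key P x with e | ⟨m, a, -, c⟩
      · exact ⟨by simpa [e.1] using h.exp P, e.2⟩
      · have s3 := le_three (N := N) h.nn m₀ m₁ m hne.symm x.symm y.symm
        rw [h.sum, e₀, a₁, a] at s3
        push_cast at s3
        nlinarith [hN P₀, hN P₁, hN P]
  · refine fin1 F3 hS ht hD n₀ (h.exp P₀) fun P x => ?_
    have e := (key P x).resolve_right fun y => hx ⟨P, x, y⟩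
    exact ⟨by simpa [e.1] using h.exp P, e.2⟩

theorem fibN (GF : M3G.StmtGF) (F1 : StmtF1) (F2 : StmtF2) (F3 : StmtF3) : StmtFibN := by
  intro L _ _ C d v b t φ n α hS ht h1 hn _ h2 ⟨o, ho, h3⟩
  obtain ⟨Y, g, N, A, S, hD, hN⟩ := num GF hS ht φ n α
  have h := hN.cls h1 hn h2
  refine star_neg F1 F2 F3 hS ht hD h ?_
  obtain ⟨P, rfl⟩ := exists_place ho
  have hn' : (0 : ℚ) < n := by exact_mod_cast hn
  have m : P ∈ S := by_contra fun x => by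
    rw [(h.off P x).2, show (dvOf P).v φ = 0 from (hN.off P x).2] at h3
    simp at h3
  refine lt_of_mul_lt_mul_left ?_ hn'.le
  rw [mul_zero, ← hN.deg, mul_sum]
  refine sum_lt_sum (fun P _ => ?_) ⟨P, m, ?_⟩ <;> rw [mul_left_comm]
  · exact mul_le_mul_of_nonneg_left (h2 _ (hor_dvOf P)) (Nat.cast_nonneg _)
  · exact mul_lt_mul_of_pos_left h3 (by exact_mod_cast hD.pos P)

theorem fibZ (GF : M3G.StmtGF) (F1 : StmtF1) (F2 : StmtF2) (F3 : StmtF3) : StmtFibZ := by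
  intro L _ _ C d v b t φ n α hS ht h1 hn _ h2 ⟨o, ho, h3⟩
  obtain ⟨Y, g, N, A, S, hD, hN⟩ := num GF hS ht φ n α
  have h := hN.cls (v := v) (fun o ho => (h1 o ho).imp fun a x => ⟨x.1, x.2.imp_left And.left⟩)
    hn h2
  rcases h.le.lt_or_eq with hlt | h0
  · exact star_neg F1 F2 F3 hS ht hD h hlt
  have hN' : ∀ P, (1 : ℚ) ≤ N P := fun P => by exact_mod_cast hD.pos P
  obtain ⟨P, rfl⟩ := exists_place ho
  obtain ⟨P₀, h₀⟩ := h.neg hD.pos ⟨P, h3⟩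
  obtain ⟨P₁, h₁⟩ := h.pos hD.pos h0 h₀
  obtain ⟨m₀, e₀⟩ := h.core h₀.ne
  obtain ⟨m₁, e₁⟩ := h.core h₁.ne'
  have hne : P₁ ≠ P₀ := fun e => by rw [e] at h₁; linarith
  have s2 := le_two (N := N) h.nn m₀ m₁ hne.symm
  rw [h.sum, e₀, e₁, h0] at s2
  have hg : g = 0 := by
    have : (g : ℚ) < 1 := by linarith [hN' P₀, hN' P₁]
    exact Nat.lt_one_iff.1 (by exact_mod_cast this)
  subst hg
  push_cast at s2
  have n₀ : N P₀ = 1 := by exact_mod_cast le_antisymm (by linarith [hN' P₁]) (hN' P₀)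
  have n₁ : N P₁ = 1 := by exact_mod_cast le_antisymm (by linarith [hN' P₀]) (hN' P₁)
  refine fin2 F1 F2 hS ht hD n₀ n₁ hne (h.exp P₀) (h.exp P₁) (fun m hm => ?_) fun P x y => ?_
  · have h4 : 0 < m := by exact_mod_cast (hm ▸ e₁ ▸ h₁ : (0 : ℚ) < m)
    obtain ⟨a, ha, hb⟩ := h1 _ (hor_dvOf P₁)
    obtain rfl := hN.uniq P₁ a ha
    exact ⟨h4, (hb.resolve_right fun z => h₁.ne' z.1).2.2 m hm h4⟩
  · have s3 : P ∈ S → (N P : ℚ) * (α (dvOf P) - A P + 1) ≤ 0 := fun m => by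
      have s3 := le_three (N := N) h.nn m₀ m₁ m hne.symm x.symm y.symm
      rw [h.sum, e₀, e₁, h0] at s3
      push_cast at s3
      linarith [hN' P₀, hN' P₁]
    rcases h.cls P with e | ⟨e, e' | e'⟩
    · have m : P ∈ S := by_contra fun x => by linarith [h.off P x |>.1, h.off P x |>.2]
      have := s3 m
      rw [e] at this
      linarith [hN' P]
    · exact ⟨by simpa [e'.1] using h.exp P, e'.2⟩
    · have := s3 (by_contra fun x => by linarith [h.off P x |>.1])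
      rw [e] at this
      nlinarith [hN' P]

theorem fib0 (GF : M3G.StmtGF) : StmtFib0 := by
  intro L _ _ C d v b t φ n α hS ht h1 hn _ h2 ⟨o, ho, h3⟩ o' ho'
  obtain ⟨Y, g, N, A, S, hD, hN⟩ := num GF hS ht φ n α
  have h := hN.cls h1 hn h2
  have hN' : ∀ P, (1 : ℚ) ≤ N P := fun P => by exact_mod_cast hD.pos P
  have hg : (0 : ℚ) ≤ g := Nat.cast_nonneg _
  obtain ⟨P, rfl⟩ := exists_place ho
  obtain ⟨P', rfl⟩ := exists_place ho'
  by_contra h4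
  have e : A P = 0 := (hN.uniq P 0 (by simpa using h3)).symm
  have e' : α (dvOf P) = 0 := (h.cls P).elim (fun x => x ▸ e) And.left
  have m : P ∈ S := by_contra fun x => by linarith [h.off P x |>.1]
  obtain ⟨P₀, h₀⟩ := h.neg hD.pos ⟨P', h4⟩
  obtain ⟨m₀, e₀⟩ := h.core h₀.ne
  have hne : P ≠ P₀ := fun x => by rw [x] at e'; linarith
  rcases h.le.lt_or_eq with hlt | h0
  · have s2 := le_two (N := N) h.nn m m₀ hne
    rw [h.sum, e₀, e, e'] at s2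
    linarith [hN' P, hN' P₀]
  · obtain ⟨P₁, h₁⟩ := h.pos hD.pos h0 h₀
    obtain ⟨m₁, e₁⟩ := h.core h₁.ne'
    have s3 := le_three (N := N) h.nn m m₀ m₁ hne (fun x => by rw [x] at e'; linarith)
      (fun x => by rw [x] at h₀; linarith)
    rw [h.sum, e₀, e₁, e, e', h0] at s3
    linarith [hN' P, hN' P₀, hN' P₁]

end

end Pool.Agent.MP_ee8c61_ag.M3F
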